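import Mathlib

set_option autoImplicit false

namespace Pool.Agent.H9.Bidegree

open MvPolynomial

noncomputable section

/-- index of w, z, y in Fin 3: w = 0, z = 1, y = 2 -/
abbrev R0 := MvPolynomial (Fin 3) ℂ
abbrev S := MvPolynomial (Fin 3 ⊕ Fin 3) ℂ

/-- the polynomial w² − z(y² + z^(n-1)) -/
def F (n : ℕ) : R0 := X 0 ^ 2 - (X 1 * (X 2 ^ 2 + X 1 ^ (n - 1)))

lemma F_irreducible (n : ℕ) (hn : 3 ≤ n) : Irreducible (F n) := by
  have key : Irreducible (Polynomial.X ^ 2 - Polynomial.C (X 0 * (X 1 ^ 2 + X 0 ^ (n - 1)) : MvPolynomial (Fin 2) ℂ)) := by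
    have hmon : (Polynomial.X ^ 2 - Polynomial.C (X 0 * (X 1 ^ 2 + X 0 ^ (n - 1)) : MvPolynomial (Fin 2) ℂ)).Monic :=
      Polynomial.monic_X_pow_sub_C _ (by norm_num)
    have hdeg : (Polynomial.X ^ 2 - Polynomial.C (X 0 * (X 1 ^ 2 + X 0 ^ (n - 1)) : MvPolynomial (Fin 2) ℂ)).natDegree = 2 :=
      Polynomial.natDegree_X_pow_sub_C
    have hXp : Prime (X 0 : MvPolynomial (Fin 2) ℂ) := X_prime
    have hprime : (Ideal.span {(X 0 : MvPolynomial (Fin 2) ℂ)}).IsPrime :=
      (Ideal.span_singleton_prime hXp.ne_zero).2 hXp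
    refine Polynomial.IsEisensteinAt.irreducible (𝓟 := Ideal.span {(X 0 : MvPolynomial (Fin 2) ℂ)}) ?_ hprime
      hmon.isPrimitive (by rw [hdeg]; norm_num)
    refine ⟨?_, ?_, ?_⟩
    · rw [hmon.leadingCoeff]
      intro h
      exact hprime.ne_top ((Ideal.eq_top_iff_one _).2 h)
    · intro k hk
      rw [hdeg] at hk
      rw [Polynomial.coeff_sub, Polynomial.coeff_X_pow, Polynomial.coeff_C]
      rw [if_neg (by omega)]
      by_cases h0 : k = 0
      · rw [if_pos h0, zero_sub]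
        exact (Submodule.neg_mem_iff _).2 (Ideal.mem_span_singleton.2 (Dvd.intro _ rfl))
      · rw [if_neg h0, sub_zero]; exact Ideal.zero_mem _
    · rw [Polynomial.coeff_sub, Polynomial.coeff_X_pow, Polynomial.coeff_C, if_neg (by norm_num), if_pos rfl,
        zero_sub, Ideal.span_singleton_pow, Ideal.mem_span_singleton]
      intro h
      rw [dvd_neg, pow_two] at h
      have h1 : (X 0 : MvPolynomial (Fin 2) ℂ) ∣ (X 1 ^ 2 + X 0 ^ (n - 1)) :=
        (mul_dvd_mul_iff_left hXp.ne_zero).1 h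
      have h2 : (X 0 : MvPolynomial (Fin 2) ℂ) ∣ X 0 ^ (n - 1) := dvd_pow_self _ (by omega)
      have h3 : (X 0 : MvPolynomial (Fin 2) ℂ) ∣ X 1 ^ 2 := (dvd_add_left h2).1 h1
      have h4 : (X 0 : MvPolynomial (Fin 2) ℂ) ∣ X 1 := hXp.dvd_of_dvd_pow h3
      rw [X_dvd_X] at h4
      simp at h4
  have himg : finSuccEquiv ℂ 2 (F n) = Polynomial.X ^ 2 - Polynomial.C (X 0 * (X 1 ^ 2 + X 0 ^ (n - 1)) : MvPolynomial (Fin 2) ℂ) := by
    have e1 : finSuccEquiv ℂ 2 (X 1) = Polynomial.C (X 0) := finSuccEquiv_X_succ (j := 0)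
    have e2 : finSuccEquiv ℂ 2 (X 2) = Polynomial.C (X 1) := finSuccEquiv_X_succ (j := 1)
    simp only [F, map_sub, map_mul, map_add, map_pow, finSuccEquiv_X_zero, e1, e2]
  rw [← MulEquiv.irreducible_iff (finSuccEquiv ℂ 2), himg]
  exact key

lemma F_ne_zero (n : ℕ) (hn : 3 ≤ n) : F n ≠ 0 := (F_irreducible n hn).ne_zero

lemma F_coeff (n : ℕ) (hn : 3 ≤ n) (m : Fin 3 →₀ ℕ) :
    coeff m (F n) = (if Finsupp.single 0 2 = m then 1 else 0) - (if Finsupp.single 1 1 + Finsupp.single 2 2 = m then 1 else 0)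
      - (if Finsupp.single 1 n = m then 1 else 0) := by
  have h1 : (F n) = monomial (Finsupp.single 0 2) 1 - monomial (Finsupp.single 1 1 + Finsupp.single 2 2) 1
     - monomial (Finsupp.single 1 n) 1 := by
    have e : (X 1 : R0) * X 1 ^ (n-1) = monomial (Finsupp.single 1 n) 1 := by
      rw [← pow_succ', Nat.sub_add_cancel (by omega), X_pow_eq_monomial]
    have e' : (X 1 : R0) * X 2 ^ 2 = monomial (Finsupp.single 1 1 + Finsupp.single 2 2) 1 := by
      rw [X_pow_eq_monomial, X, monomial_mul, one_mul]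
    rw [F, mul_add, e, e', X_pow_eq_monomial]
    ring
  rw [h1]
  simp only [coeff_sub, coeff_monomial]


lemma F_support (n : ℕ) (hn : 4 ≤ n) (m : Fin 3 →₀ ℕ) (hm : m ∈ (F n).support) :
    m = Finsupp.single 0 2 ∨ m = Finsupp.single 1 1 + Finsupp.single 2 2 ∨ m = Finsupp.single 1 n := by
  rw [mem_support_iff, F_coeff n (by omega)] at hm
  by_contra h
  push Not at h
  rw [if_neg (Ne.symm h.1), if_neg (Ne.symm h.2.1), if_neg (Ne.symm h.2.2)] at hm
  simp at hm

lemma mem0 (n : ℕ) (hn : 4 ≤ n) : Finsupp.single 0 2 ∈ (F n).support := by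
  rw [mem_support_iff, F_coeff n (by omega), if_pos rfl, if_neg, if_neg]
  · simp
  · intro h
    have := DFunLike.congr_fun h 0
    simp at this
  · intro h
    have := DFunLike.congr_fun h 0
    simp at this

lemma mem1 (n : ℕ) (hn : 4 ≤ n) : Finsupp.single 1 1 + Finsupp.single 2 2 ∈ (F n).support := by
  rw [mem_support_iff, F_coeff n (by omega), if_pos rfl, if_neg, if_neg]
  · simp
  · intro h
    have := DFunLike.congr_fun h 2
    simp at this
  · intro h
    have := DFunLike.congr_fun h 0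
    simp at this

lemma mem2 (n : ℕ) (hn : 4 ≤ n) : Finsupp.single 1 n ∈ (F n).support := by
  rw [mem_support_iff, F_coeff n (by omega), if_pos rfl, if_neg, if_neg]
  · simp
  · intro h
    have := DFunLike.congr_fun h 2
    simp at this
  · intro h
    have := DFunLike.congr_fun h 0
    simp at this

lemma deg0 (n : ℕ) (hn : 4 ≤ n) : degreeOf 0 (F n) = 2 := by
  apply le_antisymm
  · rw [degreeOf_le_iff]
    intro m hm
    rcases F_support n hn m hm with h | h | h <;> subst h <;> simp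
  · have := monomial_le_degreeOf 0 (mem0 n hn)
    simpa using this

lemma deg2 (n : ℕ) (hn : 4 ≤ n) : degreeOf 2 (F n) = 2 := by
  apply le_antisymm
  · rw [degreeOf_le_iff]
    intro m hm
    rcases F_support n hn m hm with h | h | h <;> subst h <;> simp
  · have := monomial_le_degreeOf 2 (mem1 n hn)
    simpa using this

lemma sum3 (m : Fin 3 →₀ ℕ) : (m.sum fun _ e => e) = m 0 + m 1 + m 2 := by
  rw [Finsupp.sum_fintype _ _ (fun _ => rfl), Fin.sum_univ_three]

lemma totdeg_le_iff (G : R0) (c : ℕ) : totalDegree G ≤ c ↔ ∀ m ∈ G.support, m 0 + m 1 + m 2 ≤ c := by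
  rw [totalDegree, Finset.sup_le_iff]
  simp only [sum3]

lemma totdeg (n : ℕ) (hn : 4 ≤ n) : totalDegree (F n) = n := by
  apply le_antisymm
  · rw [totdeg_le_iff]
    intro m hm
    rcases F_support n hn m hm with h | h | h <;> subst h <;> simp <;> omega
  · have := le_totalDegree (mem2 n hn)
    rw [sum3] at this
    simpa using this

/-- exponents (w,z,y) with w ≤ a, y ≤ b, total ≤ c -/
def Box (a b c : ℕ) : Set (Fin 3 →₀ ℕ) := {m | m 0 ≤ a ∧ m 2 ≤ b ∧ m 0 + m 1 + m 2 ≤ c}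

lemma mem_box_iff (a b c : ℕ) (G : R0) : G ∈ restrictSupport ℂ (Box a b c) ↔
    degreeOf 0 G ≤ a ∧ degreeOf 2 G ≤ b ∧ totalDegree G ≤ c := by
  rw [mem_restrictSupport_iff, degreeOf_le_iff, degreeOf_le_iff, totdeg_le_iff]
  constructor
  · intro h
    exact ⟨fun m hm => (h hm).1, fun m hm => (h hm).2.1, fun m hm => (h hm).2.2⟩
  · rintro ⟨h0, h1, h2⟩ m hm
    exact ⟨h0 m hm, h1 m hm, h2 m hm⟩

lemma mul_mem_box (n a b c : ℕ) (hn : 4 ≤ n) (G : R0) :
    F n * G ∈ restrictSupport ℂ (Box (a + 2) (b + 2) (c + n)) ↔ G ∈ restrictSupport ℂ (Box a b c) := by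
  by_cases hG : G = 0
  · subst hG
    simp
  · have hF := F_ne_zero n (by omega)
    rw [mem_box_iff, mem_box_iff, degreeOf_mul_eq hF hG, degreeOf_mul_eq hF hG, totalDegree_mul_of_isDomain hF hG,
      deg0 n hn, deg2 n hn, totdeg n hn]
    omega

/-- the counting function -/
def cnt (a b c : ℕ) : ℕ := ∑ i ∈ Finset.range (a + 1), ∑ j ∈ Finset.range (b + 1), (c + 1 - i - j)

def boxEquiv (a b c : ℕ) : Box a b c ≃
    ((Finset.range (a + 1) ×ˢ Finset.range (b + 1)).sigma (fun p => Finset.range (c + 1 - p.1 - p.2))) where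
  toFun m := ⟨⟨(m.1 0, m.1 2), m.1 1⟩, by
    have := m.2
    simp only [Box, Set.mem_ofPred_eq] at this
    simp only [Finset.mem_sigma, Finset.mem_product, Finset.mem_range]
    omega⟩
  invFun x := ⟨Finsupp.equivFunOnFinite.symm ![x.1.1.1, x.1.2, x.1.1.2], by
    have := x.2
    simp only [Finset.mem_sigma, Finset.mem_product, Finset.mem_range] at this
    simp only [Box, Set.mem_ofPred_eq, Finsupp.equivFunOnFinite_symm_apply_apply, Matrix.cons_val_zero,
      Matrix.cons_val_one, Matrix.cons_val]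
    omega⟩
  left_inv m := by
    ext i
    fin_cases i <;> simp
  right_inv x := by
    ext <;> simp

lemma card_box (a b c : ℕ) : Nat.card (Box a b c) = cnt a b c := by
  rw [Nat.card_congr (boxEquiv a b c)]
  simp only [Nat.card_eq_fintype_card, Fintype.card_coe, Finset.card_sigma, Finset.card_range, cnt, Finset.sum_product]

instance (a b c : ℕ) : Finite (Box a b c) := Finite.of_equiv _ (boxEquiv a b c).symm

lemma finrank_box (a b c : ℕ) : Module.finrank ℂ (restrictSupport ℂ (Box a b c) : Submodule ℂ R0) = cnt a b c := by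
  rw [Module.finrank_eq_nat_card_basis (basisRestrictSupport ℂ (Box a b c)), card_box]

instance (a b c : ℕ) : Module.Finite ℂ (restrictSupport ℂ (Box a b c) : Submodule ℂ R0) :=
  Module.Finite.of_basis (basisRestrictSupport ℂ (Box a b c))

def K (κ a b : ℕ) : ℕ := ∑ i ∈ Finset.range (a + 1), ∑ j ∈ Finset.range (b + 1), (i + j + 1 - κ)

lemma cnt_eq_K (κ a b c : ℕ) (h : c + κ = a + b) : cnt a b c = K κ a b := by
  rw [cnt, K, ← Finset.sum_range_reflect]
  apply Finset.sum_congr rfl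
  intro i hi
  rw [← Finset.sum_range_reflect]
  apply Finset.sum_congr rfl
  intro j hj
  simp only [Finset.mem_range] at hi hj
  omega

lemma K_comm (κ a b : ℕ) : K κ a b = K κ b a := by
  rw [K, Finset.sum_comm, K]
  apply Finset.sum_congr rfl
  intro i _
  apply Finset.sum_congr rfl
  intro j _
  rw [add_comm j i]

lemma K_step (κ a b : ℕ) (h : κ ≤ a) : (K κ (a + 1) b : ℚ) = K κ a b + (b + 1) * (a + 2 - κ) + b * (b + 1) / 2 := by
  rw [K, Finset.sum_range_succ, ← K]
  push_cast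
  rw [add_assoc]
  congr 1
  have : ∀ B : ℕ, ((∑ j ∈ Finset.range (B + 1), (((a + 1 + j + 1 - κ : ℕ)) : ℚ))) = (B + 1) * (a + 2 - κ) + B * (B + 1) / 2 := by
    intro B
    induction B with
    | zero =>
      rw [Finset.sum_range_one, Nat.cast_sub (by omega)]
      push_cast
      ring
    | succ B ih =>
      rw [Finset.sum_range_succ, ih, Nat.cast_sub (by omega)]
      push_cast
      ring
  exact this b

def pol (κ a b : ℚ) : ℚ := (a + 1) * (b + 1) * (a + b + 2) / 2 - κ * (a + 1) * (b + 1)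

lemma K_formula_a (κ b : ℕ) : ∀ a : ℕ, κ ≤ a → (K κ a b : ℚ) = K κ κ b + pol κ a b - pol κ κ b := by
  intro a ha
  induction a, ha using Nat.le_induction with
  | base => ring
  | succ a ha ih =>
    rw [K_step κ a b ha, ih]
    simp only [pol]
    push_cast
    ring

lemma K_formula (κ a b : ℕ) (ha : κ ≤ a) (hb : κ ≤ b) : (K κ a b : ℚ) = K κ κ κ + pol κ a b - pol κ κ κ := by
  rw [K_formula_a κ b a ha, K_comm κ κ b, K_formula_a κ κ b hb]
  simp only [pol]
  ring


/-! ### the ideal -/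

/-- the bigrading weights -/
abbrev wt : Fin 3 ⊕ Fin 3 → ℕ × ℕ :=
  Sum.elim (fun _ : Fin 3 => ((1, 0) : ℕ × ℕ)) (fun _ : Fin 3 => ((0, 1) : ℕ × ℕ))

/-- dehomogenization -/
def D : S →ₐ[ℂ] R0 := aeval (Sum.elim ![1, X 1, X 2] ![1, X 0, X 1])

abbrev Q (n : ℕ) := R0 ⧸ Ideal.span {F n}

lemma isPrimeF (n : ℕ) (hn : 3 ≤ n) : (Ideal.span {F n}).IsPrime :=
  (Ideal.span_singleton_prime (F_ne_zero n hn)).2 (F_irreducible n hn).prime

/-- quotient map -/
def qm (n : ℕ) : R0 →ₐ[ℂ] Q n := Ideal.Quotient.mkₐ ℂ (Ideal.span {F n})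

/-- homogeneous map to `Q n [u,v]`. -/
def Phi (n : ℕ) : S →ₐ[ℂ] MvPolynomial (Fin 2) (Q n) :=
  aeval (Sum.elim (fun i => X 0 * C (qm n (D (X (Sum.inl i))))) (fun i => X 1 * C (qm n (D (X (Sum.inr i))))))

def P (n : ℕ) : Ideal S := RingHom.ker (Phi n)

lemma P_prime (n : ℕ) (hn : 3 ≤ n) : (P n).IsPrime := by
  have := isPrimeF n hn
  exact RingHom.ker_isPrime _

/-- the exponent associated to a bidegree -/
def ex (d : ℕ × ℕ) : Fin 2 →₀ ℕ := Finsupp.single 0 d.1 + Finsupp.single 1 d.2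

lemma ex_inj {d e : ℕ × ℕ} (h : ex d = ex e) : d = e := by
  have h0 := DFunLike.congr_fun h 0
  have h1 := DFunLike.congr_fun h 1
  simp [ex] at h0 h1
  exact Prod.ext h0 h1

lemma weight_wt (m : Fin 3 ⊕ Fin 3 →₀ ℕ) : Finsupp.weight wt m =
    (m (Sum.inl 0) + m (Sum.inl 1) + m (Sum.inl 2), m (Sum.inr 0) + m (Sum.inr 1) + m (Sum.inr 2)) := by
  rw [Finsupp.weight_apply, Finsupp.sum_fintype _ _ (fun _ => by simp), Fintype.sum_sum_type, Fin.sum_univ_three,
    Fin.sum_univ_three]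
  simp

lemma ex_add (d e : ℕ × ℕ) : ex (d + e) = ex d + ex e := by
  simp only [ex, Prod.fst_add, Prod.snd_add, Finsupp.single_add]
  abel

lemma ex_zero : ex 0 = 0 := by simp [ex]

lemma Phi_X (n : ℕ) (i : Fin 3 ⊕ Fin 3) : Phi n (X i) = monomial (ex (wt i)) (qm n (D (X i))) := by
  rcases i with i | i
  · simp only [Phi, aeval_X, Sum.elim_inl, ex, Finsupp.single_zero, add_zero]
    rw [X, mul_comm, C_mul_monomial, mul_one]
  · simp only [Phi, aeval_X, Sum.elim_inr, ex, Finsupp.single_zero, zero_add]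
    rw [X, mul_comm, C_mul_monomial, mul_one]

lemma Phi_C (n : ℕ) (c : ℂ) : Phi n (C c) = monomial 0 (qm n (D (C c))) := by
  have h1 : (C c : S) = algebraMap ℂ S c := rfl
  rw [h1, AlgHom.commutes, AlgHom.commutes, AlgHom.commutes]
  rfl

lemma Phi_pow (n : ℕ) (i : Fin 3 ⊕ Fin 3) (k : ℕ) : Phi n (X i ^ k) = monomial (ex (k • wt i)) (qm n (D (X i ^ k))) := by
  induction k with
  | zero =>
    rw [pow_zero, zero_smul, ex_zero, map_one, map_one, map_one]
    rfl
  | succ k ih => rw [pow_succ, map_mul, ih, Phi_X, monomial_mul, ← ex_add, ← succ_nsmul, map_mul D, map_mul (qm n)]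

lemma Phi_monomial (n : ℕ) (m : Fin 3 ⊕ Fin 3 →₀ ℕ) : ∀ c : ℂ,
    Phi n (monomial m c) = monomial (ex (Finsupp.weight wt m)) (qm n (D (monomial m c))) := by
  induction m using Finsupp.induction_linear with
  | zero =>
    intro c
    rw [map_zero, ex_zero]
    exact Phi_C n c
  | add f g hf hg =>
    intro c
    have e : (monomial (f + g) c : S) = monomial f c * monomial g 1 := by rw [monomial_mul, mul_one]
    rw [e, map_mul, hf, hg, monomial_mul, ← ex_add, map_add, map_mul D, map_mul (qm n)]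
  | single i k =>
    intro c
    have e : (monomial (Finsupp.single i k) c : S) = C c * X i ^ k := by
      rw [X_pow_eq_monomial, C_mul_monomial, mul_one]
    rw [e, map_mul, Phi_C, Phi_pow, monomial_mul, zero_add, ← map_mul, ← map_mul, Finsupp.weight_single]

lemma whc_monomial (d : ℕ × ℕ) (m : Fin 3 ⊕ Fin 3 →₀ ℕ) (c : ℂ) :
    weightedHomogeneousComponent wt d (monomial m c) = if Finsupp.weight wt m = d then monomial m c else 0 := by
  ext e
  rw [coeff_weightedHomogeneousComponent]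
  split_ifs with h1 h2 h2
  · rfl
  · rw [coeff_monomial, if_neg (by rintro rfl; exact h2 h1), coeff_zero]
  · rw [coeff_monomial, if_neg (by rintro rfl; exact h1 h2)]
  · rfl

lemma coeff_Phi (n : ℕ) (f : S) (d : ℕ × ℕ) :
    coeff (ex d) (Phi n f) = qm n (D (weightedHomogeneousComponent wt d f)) := by
  induction f using MvPolynomial.induction_on' with
  | monomial u a =>
    rw [Phi_monomial, whc_monomial, coeff_monomial]
    split_ifs with h1 h2 h2
    · rfl
    · exact absurd (ex_inj h1) h2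
    · exact absurd (congrArg ex h2) h1
    · rw [map_zero, map_zero]
  | add p q hp hq => rw [map_add, coeff_add, hp, hq, map_add, map_add, map_add]

lemma ex_surj (e : Fin 2 →₀ ℕ) : ex (e 0, e 1) = e := by
  ext i
  fin_cases i <;> simp [ex]

lemma mem_P_iff (n : ℕ) (f : S) : f ∈ P n ↔ ∀ d, qm n (D (weightedHomogeneousComponent wt d f)) = 0 := by
  rw [P, RingHom.mem_ker]
  constructor
  · intro h d
    rw [← coeff_Phi, h, coeff_zero]
  · intro h
    ext e
    rw [← ex_surj e, coeff_Phi, h, coeff_zero]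

lemma P_homog (n : ℕ) (f : S) (hf : f ∈ P n) (d : ℕ × ℕ) : weightedHomogeneousComponent wt d f ∈ P n := by
  rw [mem_P_iff] at hf ⊢
  intro e
  by_cases h : e = d
  · subst h
    rw [(weightedHomogeneousComponent_isWeightedHomogeneous e f).weightedHomogeneousComponent_same]
    exact hf e
  · rw [(weightedHomogeneousComponent_isWeightedHomogeneous d f).weightedHomogeneousComponent_ne e h, map_zero,
      map_zero]

lemma mem_P_iff' (n : ℕ) (d : ℕ × ℕ) (f : S) (hf : f ∈ weightedHomogeneousSubmodule ℂ wt d) :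
    f ∈ P n ↔ qm n (D f) = 0 := by
  rw [mem_weightedHomogeneousSubmodule] at hf
  rw [mem_P_iff]
  constructor
  · intro h
    have := h d
    rwa [hf.weightedHomogeneousComponent_same] at this
  · intro h e
    by_cases he : e = d
    · subst he
      rwa [hf.weightedHomogeneousComponent_same]
    · rw [hf.weightedHomogeneousComponent_ne e he, map_zero, map_zero]


/-- image exponent -/
def mu (m : Fin 3 ⊕ Fin 3 →₀ ℕ) : Fin 3 →₀ ℕ :=
  Finsupp.single 0 (m (Sum.inr 1)) + Finsupp.single 1 (m (Sum.inl 1) + m (Sum.inr 2)) + Finsupp.single 2 (m (Sum.inl 2))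

lemma D_monomial (m : Fin 3 ⊕ Fin 3 →₀ ℕ) (c : ℂ) : D (monomial m c) = monomial (mu m) c := by
  have h1 : (monomial (mu m) c : R0) = C c * (X 0 ^ (m (Sum.inr 1)) * X 1 ^ (m (Sum.inl 1) + m (Sum.inr 2)) * X 2 ^ (m (Sum.inl 2))) := by
    rw [X_pow_eq_monomial, X_pow_eq_monomial, X_pow_eq_monomial, monomial_mul, monomial_mul, C_mul_monomial, mul_one, mul_one,
      mul_one]
    rfl
  rw [h1, D, aeval_monomial, Finsupp.prod_fintype _ _ (fun _ => pow_zero _), Fintype.prod_sum_type, Fin.prod_univ_three,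
    Fin.prod_univ_three]
  simp only [Sum.elim_inl, Sum.elim_inr, Matrix.cons_val_zero, Matrix.cons_val_one, Matrix.cons_val, one_pow, one_mul, pow_add,
    algebraMap_eq]
  ring

lemma whs_eq (d : ℕ × ℕ) : weightedHomogeneousSubmodule ℂ wt d = restrictSupport ℂ {m | Finsupp.weight wt m = d} := by
  ext f
  rw [mem_weightedHomogeneousSubmodule, mem_restrictSupport_iff]
  constructor
  · intro h m hm
    exact h (mem_support_iff.1 hm)
  · intro h m hm
    exact h (mem_support_iff.2 hm)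

lemma D_image (s t : ℕ) : (weightedHomogeneousSubmodule ℂ wt (s, t)).map D.toLinearMap = restrictSupport ℂ (Box t s (s + t)) := by
  rw [whs_eq, restrictSupport_eq_span, restrictSupport_eq_span, Submodule.map_span]
  congr 1
  ext f
  simp only [Set.mem_image, Set.mem_ofPred_eq, weight_wt, Prod.mk.injEq]
  constructor
  · rintro ⟨_, ⟨m, ⟨hm1, hm2⟩, rfl⟩, rfl⟩
    refine ⟨mu m, ?_, (D_monomial m 1).symm⟩
    simp [Box, mu]
    omega
  · rintro ⟨m, ⟨hm1, hm2, hm3⟩, rfl⟩
    let α := min (m 1) (s - m 2)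
    let f : Fin 3 ⊕ Fin 3 →₀ ℕ := Finsupp.equivFunOnFinite.symm
      (Sum.elim ![s - m 2 - α, α, m 2] ![t - m 0 - (m 1 - α), m 0, m 1 - α])
    have e : mu f = m := by
      ext i
      fin_cases i
      · simp [mu, f]
      · simp [mu, f, α]
      · simp [mu, f]
    refine ⟨monomial f 1, ⟨f, ⟨?_, ?_⟩, rfl⟩, ?_⟩
    · simp [f, α]
      omega
    · simp [f, α]
      omega
    · change D (monomial f 1) = _
      rw [D_monomial, e]

/-- the composite map on the bidegree `d` piece -/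
def qD (n : ℕ) (d : ℕ × ℕ) : weightedHomogeneousSubmodule ℂ wt d →ₗ[ℂ] Q n :=
  (qm n).toLinearMap ∘ₗ D.toLinearMap ∘ₗ (weightedHomogeneousSubmodule ℂ wt d).subtype

lemma ker_qD (n : ℕ) (d : ℕ × ℕ) : LinearMap.ker (qD n d) = Submodule.comap (weightedHomogeneousSubmodule ℂ wt d).subtype
    ((P n).restrictScalars ℂ) := by
  ext f
  rw [LinearMap.mem_ker, Submodule.mem_comap, Submodule.restrictScalars_mem]
  exact (mem_P_iff' n d f.1 f.2).symm

lemma range_qD (n : ℕ) (s t : ℕ) : LinearMap.range (qD n (s, t)) = (restrictSupport ℂ (Box t s (s + t))).map (qm n).toLinearMap := by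
  rw [qD, LinearMap.range_comp, LinearMap.range_comp, Submodule.range_subtype, D_image]

lemma finrank_quot (n s t : ℕ) : Module.finrank ℂ ((weightedHomogeneousSubmodule ℂ wt (s, t)) ⧸
    Submodule.comap (weightedHomogeneousSubmodule ℂ wt (s, t)).subtype ((P n).restrictScalars ℂ)) =
    Module.finrank ℂ ((restrictSupport ℂ (Box t s (s + t)) : Submodule ℂ R0).map (qm n).toLinearMap) := by
  rw [← ker_qD, ← range_qD]
  exact (LinearMap.quotKerEquivRange (qD n (s, t))).finrank_eq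

/-- restricted quotient map -/
def rq (n a b c : ℕ) : (restrictSupport ℂ (Box a b c) : Submodule ℂ R0) →ₗ[ℂ] Q n :=
  (qm n).toLinearMap ∘ₗ (restrictSupport ℂ (Box a b c)).subtype

lemma mulF_mem (n a b c : ℕ) (hn : 4 ≤ n) (G : (restrictSupport ℂ (Box a b c) : Submodule ℂ R0)) :
    F n * G.1 ∈ restrictSupport ℂ (Box (a + 2) (b + 2) (c + n)) := (mul_mem_box n a b c hn G.1).2 G.2

lemma qm_eq_zero_iff (n : ℕ) (G : R0) : qm n G = 0 ↔ F n ∣ G := by
  rw [← Ideal.mem_span_singleton, qm, Ideal.Quotient.mkₐ_eq_mk, Ideal.Quotient.eq_zero_iff_mem]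

/-- multiplication by F -/
def mulF (n a b c : ℕ) (hn : 4 ≤ n) :
    (restrictSupport ℂ (Box a b c) : Submodule ℂ R0) →ₗ[ℂ] (restrictSupport ℂ (Box (a + 2) (b + 2) (c + n)) : Submodule ℂ R0) :=
  (LinearMap.mulLeft ℂ (F n)).restrict (fun G hG => (mul_mem_box n a b c hn G).2 hG)

lemma mulF_val (n a b c : ℕ) (hn : 4 ≤ n) (G : (restrictSupport ℂ (Box a b c) : Submodule ℂ R0)) :
    (mulF n a b c hn G).1 = F n * G.1 := rfl

/-- multiplication by F to the kernel -/
def mulFK (n a b c : ℕ) (hn : 4 ≤ n) :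
    (restrictSupport ℂ (Box a b c) : Submodule ℂ R0) →ₗ[ℂ] LinearMap.ker (rq n (a + 2) (b + 2) (c + n)) :=
  (mulF n a b c hn).codRestrict _ (fun G => by
        rw [LinearMap.mem_ker]
        exact (qm_eq_zero_iff n _).2 ⟨G.1, mulF_val n a b c hn G⟩)

lemma mulFK_val (n a b c : ℕ) (hn : 4 ≤ n) (G : (restrictSupport ℂ (Box a b c) : Submodule ℂ R0)) :
    (mulFK n a b c hn G).1.1 = F n * G.1 := rfl

lemma mulFK_bij (n a b c : ℕ) (hn : 4 ≤ n) : Function.Bijective (mulFK n a b c hn) := by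
  constructor
  · intro G H h
    have h1 : F n * G.1 = F n * H.1 := by
      rw [← mulFK_val n a b c hn G, ← mulFK_val n a b c hn H, h]
    exact Subtype.ext (mul_left_cancel₀ (F_ne_zero n (by omega)) h1)
  · intro x
    have hx' := x.2
    rw [LinearMap.mem_ker] at hx'
    obtain ⟨G, hG⟩ := (qm_eq_zero_iff n x.1.1).1 hx'
    have hx := x.1.2
    rw [hG] at hx
    refine ⟨⟨G, (mul_mem_box n a b c hn G).1 hx⟩, ?_⟩
    apply Subtype.ext
    apply Subtype.ext
    rw [mulFK_val, hG]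

lemma finrank_map (n a b c : ℕ) (hn : 4 ≤ n) :
    Module.finrank ℂ ((restrictSupport ℂ (Box (a + 2) (b + 2) (c + n)) : Submodule ℂ R0).map (qm n).toLinearMap) + cnt a b c
      = cnt (a + 2) (b + 2) (c + n) := by
  have h1 := LinearMap.finrank_range_add_finrank_ker (rq n (a + 2) (b + 2) (c + n))
  rw [finrank_box, ← (LinearEquiv.ofBijective _ (mulFK_bij n a b c hn)).finrank_eq, finrank_box] at h1
  rw [← h1, rq, LinearMap.range_comp, Submodule.range_subtype]

theorem main (n : ℕ) (hn : 4 ≤ n) : ∃ P : Ideal (MvPolynomial (Fin 3 ⊕ Fin 3) ℂ), P.IsPrime ∧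
        (∀ f ∈ P, ∀ d : ℕ × ℕ,
          MvPolynomial.weightedHomogeneousComponent
            (Sum.elim (fun _ : Fin 3 => ((1, 0) : ℕ × ℕ)) (fun _ : Fin 3 => ((0, 1) : ℕ × ℕ))) d f ∈ P) ∧
        ∃ a b c : ℚ, ∃ s₀ : ℕ, ∀ s t : ℕ, s₀ ≤ s → s₀ ≤ t →
          ((Module.finrank ℂ
              (↥(MvPolynomial.weightedHomogeneousSubmodule ℂ
                  (Sum.elim (fun _ : Fin 3 => ((1, 0) : ℕ × ℕ)) (fun _ : Fin 3 => ((0, 1) : ℕ × ℕ))) (s, t)) ⧸
                Submodule.comap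
                  (MvPolynomial.weightedHomogeneousSubmodule ℂ
                    (Sum.elim (fun _ : Fin 3 => ((1, 0) : ℕ × ℕ)) (fun _ : Fin 3 => ((0, 1) : ℕ × ℕ))) (s, t)).subtype
                  (P.restrictScalars ℂ)) : ℕ) : ℚ)
            = (s : ℚ) ^ 2 + (n : ℚ) * s * t + (t : ℚ) ^ 2 + a * s + b * t + c := by
  obtain ⟨κ, rfl⟩ := Nat.exists_eq_add_of_le' hn
  refine ⟨P (κ + 4), P_prime (κ + 4) (by omega), fun f hf d => P_homog (κ + 4) f hf d, -κ, -κ,
    2 + κ - (K κ κ κ - pol κ κ κ), κ + 2, ?_⟩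
  intro s t hs ht
  obtain ⟨b, rfl⟩ : ∃ b, s = b + 2 := ⟨s - 2, by omega⟩
  obtain ⟨a, rfl⟩ : ∃ a, t = a + 2 := ⟨t - 2, by omega⟩
  obtain ⟨c, hc⟩ : ∃ c, c + κ = a + b := ⟨a + b - κ, by omega⟩
  rw [finrank_quot]
  have h1 := finrank_map (κ + 4) a b c hn
  have h2 : b + 2 + (a + 2) = c + (κ + 4) := by omega
  rw [h2]
  rw [cnt_eq_K κ a b c hc, cnt_eq_K 0 (a + 2) (b + 2) (c + (κ + 4)) (by omega)] at h1
  have h3 := K_formula κ a b (by omega) (by omega)
  have h4 := K_formula 0 (a + 2) (b + 2) (by omega) (by omega)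
  have h5 : K 0 0 0 = 1 := by simp [K]
  have h6 : (Module.finrank ℂ ((restrictSupport ℂ (Box (a + 2) (b + 2) (c + (κ + 4))) : Submodule ℂ R0).map
    (qm (κ + 4)).toLinearMap) : ℚ) + K κ a b = K 0 (a + 2) (b + 2) := by exact_mod_cast h1
  rw [h3, h4, h5] at h6
  rw [eq_sub_of_add_eq h6]
  simp only [pol]
  push_cast
  ring

end

end Pool.Agent.H9.Bidegree
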