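import Mathlib

set_option autoImplicit false

namespace Pool.Agent.H9.DiscDeriv

open Polynomial

noncomputable section

/-- the points a1,a1,a2,a2,1,1,0 -/
def zr (a1 a2 : ℝ) : Fin 7 → ℝ := ![a1, a1, a2, a2, 1, 1, 0]

/-- cubic factor -/
def cub (a1 a2 : ℂ) : Cubic ℂ := ⟨7, -5 * (a1 + a2 + 1), 3 * (a1 + a2 + a1 * a2), -(a1 * a2)⟩

lemma exists_roots (a1 a2 : ℂ) : ∃ x y z : ℂ, (Cubic.map (RingHom.id ℂ) (cub a1 a2)).roots = {x, y, z} := by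
  have ha : (cub a1 a2).a ≠ 0 := by simp [cub]
  exact (Cubic.splits_iff_roots_eq_three (φ := RingHom.id ℂ) ha).1 (IsAlgClosed.splits _)

lemma roots_facts (a1 a2 : ℂ) : ∃ x y z : ℂ,
    -5 * (a1 + a2 + 1) = 7 * -(x + y + z) ∧ 3 * (a1 + a2 + a1 * a2) = 7 * (x * y + x * z + y * z) ∧
    -(a1 * a2) = 7 * -(x * y * z) := by
  obtain ⟨x, y, z, h⟩ := exists_roots a1 a2
  have ha : (cub a1 a2).a ≠ 0 := by simp [cub]
  have h1 := Cubic.b_eq_three_roots ha h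
  have h2 := Cubic.c_eq_three_roots ha h
  have h3 := Cubic.d_eq_three_roots ha h
  simp only [cub, RingHom.id_apply] at h1 h2 h3
  exact ⟨x, y, z, h1, h2, h3⟩

lemma deriv_fact (a1 a2 x y z : ℂ) (h1 : -5 * (a1 + a2 + 1) = 7 * -(x + y + z))
    (h2 : 3 * (a1 + a2 + a1 * a2) = 7 * (x * y + x * z + y * z)) (h3 : -(a1 * a2) = 7 * -(x * y * z)) :
    derivative ((X - C a1) * (X - C a1) * (X - C a2) * (X - C a2) * (X - C 1) * (X - C 1) * (X - C 0)) =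
      C 7 * ((X - C a1) * (X - C a2) * (X - C 1) * (X - C x) * (X - C y) * (X - C z)) := by
  have e1 := congrArg (C : ℂ →+* ℂ[X]) h1
  have e2 := congrArg (C : ℂ →+* ℂ[X]) h2
  have e3 := congrArg (C : ℂ →+* ℂ[X]) h3
  simp only [map_mul, map_add, map_neg, map_one] at e1 e2 e3
  have c7 : (C 7 : ℂ[X]) = 7 := rfl
  have c5 : (C 5 : ℂ[X]) = 5 := rfl
  have c3 : (C 3 : ℂ[X]) = 3 := rfl
  simp only [derivative_mul, derivative_sub, derivative_X, derivative_C, derivative_one, map_one, map_zero, sub_zero]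
  rw [c7, c5] at e1
  rw [c7, c3] at e2
  rw [c7] at e3 ⊢
  linear_combination (X - C a1) * (X - C a2) * (X - 1) * (X ^ 2 * e1 + X * e2 + e3)

/-- the discriminant polynomial of the cubic factor -/
def dq (a1 a2 : ℝ) : ℝ := 225 * (a1 + a2 + 1) ^ 2 * (a1 + a2 + a1 * a2) ^ 2 - 756 * (a1 + a2 + a1 * a2) ^ 3
  - 500 * (a1 + a2 + 1) ^ 3 * (a1 * a2) - 1323 * (a1 * a2) ^ 2 + 1890 * (a1 + a2 + 1) * (a1 + a2 + a1 * a2) * (a1 * a2)


/-- values -/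
def Qv (l : List (Fin 7 × Fin 7)) (a1 a2 : ℝ) : ℝ := (l.map (fun p => zr a1 a2 p.1 - zr a1 a2 p.2)).prod

lemma real_identity (m : ℕ) (c : Fin m → ℝ) (E : Fin m → List (Fin 7 × Fin 7))
    (H : ∀ (z : Fin 7 → ℂ) (r : Fin (7 - 1) → ℂ),
          Polynomial.derivative (∏ i : Fin 7, (Polynomial.X - Polynomial.C (z i))) =
              Polynomial.C ((7 : ℕ) : ℂ) * ∏ j : Fin (7 - 1), (Polynomial.X - Polynomial.C (r j)) →
            ((7 : ℕ) : ℂ) ^ (2 * 7 - 4) * ∏ a : Fin (7 - 1), ∏ b ∈ Finset.Ioi a, (r a - r b) ^ 2 =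
              ∑ k : Fin m, ((c k : ℝ) : ℂ) * (((E k).map (fun p => z p.1 - z p.2)).prod) ^ 2)
    (a1 a2 : ℝ) :
    64 * (a1 - a2) ^ 6 * (a1 - 1) ^ 6 * (a2 - 1) ^ 6 * a1 ^ 2 * a2 ^ 2 * dq a1 a2 =
      ∑ k : Fin m, c k * (Qv (E k) a1 a2) ^ 2 := by
  obtain ⟨x, y, z, h1, h2, h3⟩ := roots_facts (a1 : ℂ) (a2 : ℂ)
  have hd := deriv_fact (a1 : ℂ) (a2 : ℂ) x y z h1 h2 h3

  have hz : ∏ i : Fin 7, (X - C ((zr a1 a2 i : ℝ) : ℂ)) =
      (X - C (a1 : ℂ)) * (X - C (a1 : ℂ)) * (X - C (a2 : ℂ)) * (X - C (a2 : ℂ)) * (X - C 1) * (X - C 1) * (X - C 0) := by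
    rw [Fin.prod_univ_seven, ← Complex.ofReal_one, ← Complex.ofReal_zero]
    rfl
  have hr : ∏ j : Fin (7 - 1), (X - C ((![(a1 : ℂ), (a2 : ℂ), 1, x, y, z] : Fin (7 - 1) → ℂ) j)) =
      ((X - C (a1 : ℂ)) * (X - C (a2 : ℂ)) * (X - C 1) * (X - C x) * (X - C y) * (X - C z)) :=
    Fin.prod_univ_six _
  have H1 := H (fun i => ((zr a1 a2 i : ℝ) : ℂ)) ![(a1 : ℂ), (a2 : ℂ), 1, x, y, z] (by
    rw [hz, hr, hd]
    rfl)
  have hL : ∏ a : Fin (7 - 1), ∏ b ∈ Finset.Ioi a, ((![(a1 : ℂ), (a2 : ℂ), 1, x, y, z] : Fin (7 - 1) → ℂ) a -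
      (![(a1 : ℂ), (a2 : ℂ), 1, x, y, z] : Fin (7 - 1) → ℂ) b) ^ 2 =
      ((a1 - a2) * (a1 - 1) * (a2 - 1)) ^ 2 * ((a1 - x) * (a1 - y) * (a1 - z)) ^ 2 * ((a2 - x) * (a2 - y) * (a2 - z)) ^ 2 *
      ((1 - x) * (1 - y) * (1 - z)) ^ 2 * ((x - y) * (x - z) * (y - z)) ^ 2 := by
    change ∏ a : Fin 6, ∏ b ∈ Finset.Ioi a, ((![(a1 : ℂ), (a2 : ℂ), 1, x, y, z] : Fin 6 → ℂ) a -
      (![(a1 : ℂ), (a2 : ℂ), 1, x, y, z] : Fin 6 → ℂ) b) ^ 2 = _
    simp only [Fin.prod_univ_succ, Fin.prod_Ioi_zero, Fin.prod_Ioi_succ, Fin.prod_univ_zero, Matrix.cons_val_zero,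
      Matrix.cons_val_succ, mul_one]
    generalize (a1 : ℂ) - a2 = d1
    generalize (a1 : ℂ) - 1 = d2
    generalize (a1 : ℂ) - x = d3
    generalize (a1 : ℂ) - y = d4
    generalize (a1 : ℂ) - z = d5
    generalize (a2 : ℂ) - 1 = d6
    generalize (a2 : ℂ) - x = d7
    generalize (a2 : ℂ) - y = d8
    generalize (a2 : ℂ) - z = d9
    generalize (1 : ℂ) - x = d10
    generalize (1 : ℂ) - y = d11
    generalize (1 : ℂ) - z = d12
    generalize x - y = d13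
    generalize x - z = d14
    generalize y - z = d15
    ring
  rw [hL] at H1
  have hR : ∑ k : Fin m, ((c k : ℝ) : ℂ) * (((E k).map (fun p => ((zr a1 a2 p.1 : ℝ) : ℂ) - ((zr a1 a2 p.2 : ℝ) : ℂ))).prod) ^ 2
      = ((∑ k : Fin m, c k * (Qv (E k) a1 a2) ^ 2 : ℝ) : ℂ) := by
    rw [Complex.ofReal_sum]
    apply Finset.sum_congr rfl
    intro k _
    rw [Complex.ofReal_mul, Complex.ofReal_pow]
    congr 2
    rw [Qv, ← Complex.ofRealHom_eq_coe, map_list_prod, List.map_map]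
    congr 1
    apply List.map_congr_left
    intro p _
    simp
  have H2 : ((64 * (a1 - a2) ^ 6 * (a1 - 1) ^ 6 * (a2 - 1) ^ 6 * a1 ^ 2 * a2 ^ 2 * dq a1 a2 : ℝ) : ℂ) =
      ((∑ k : Fin m, c k * (Qv (E k) a1 a2) ^ 2 : ℝ) : ℂ) := by
    rw [← hR, ← H1]
    have q1 : 7 * ((a1 - x) * (a1 - y) * (a1 - z)) = 2 * ((a1 : ℂ) - a2) * (a1 - 1) * a1 := by
      linear_combination (-(a1 : ℂ) ^ 2) * h1 - a1 * h2 - h3
    have q2 : 7 * ((a2 - x) * (a2 - y) * (a2 - z)) = 2 * ((a2 : ℂ) - a1) * (a2 - 1) * a2 := by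
      linear_combination (-(a2 : ℂ) ^ 2) * h1 - a2 * h2 - h3
    have q3 : 7 * ((1 - x) * (1 - y) * (1 - z)) = 2 * (1 - (a1 : ℂ)) * (1 - a2) := by
      linear_combination (-1 : ℂ) * h1 - h2 - h3
    have q4 : (49 * ((x - y) * (x - z) * (y - z))) ^ 2 = ((dq a1 a2 : ℝ) : ℂ) := by
      have e1 : ((dq a1 a2 : ℝ) : ℂ) = (-5 * ((a1 : ℂ) + a2 + 1)) ^ 2 * (3 * ((a1 : ℂ) + a2 + a1 * a2)) ^ 2
         - 4 * 7 * (3 * ((a1 : ℂ) + a2 + a1 * a2)) ^ 3 - 4 * (-5 * ((a1 : ℂ) + a2 + 1)) ^ 3 * (-((a1 : ℂ) * a2))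
         - 27 * 7 ^ 2 * (-((a1 : ℂ) * a2)) ^ 2 + 18 * 7 * (-5 * ((a1 : ℂ) + a2 + 1)) * (3 * ((a1 : ℂ) + a2 + a1 * a2)) *
           (-((a1 : ℂ) * a2)) := by
        simp only [dq]
        push_cast
        ring
      rw [e1, h1, h2, h3]
      ring
    have e2 : ((7 : ℕ) : ℂ) ^ (2 * 7 - 4) * (((a1 - a2) * (a1 - 1) * (a2 - 1)) ^ 2 * ((a1 - x) * (a1 - y) * (a1 - z)) ^ 2 *
        ((a2 - x) * (a2 - y) * (a2 - z)) ^ 2 * ((1 - x) * (1 - y) * (1 - z)) ^ 2 * ((x - y) * (x - z) * (y - z)) ^ 2) =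
        (((a1 : ℂ) - a2) * (a1 - 1) * (a2 - 1)) ^ 2 * (7 * ((a1 - x) * (a1 - y) * (a1 - z))) ^ 2 *
        (7 * ((a2 - x) * (a2 - y) * (a2 - z))) ^ 2 * (7 * ((1 - x) * (1 - y) * (1 - z))) ^ 2 *
        (49 * ((x - y) * (x - z) * (y - z))) ^ 2 := by
      generalize ((a1 : ℂ) - a2) * (a1 - 1) * (a2 - 1) = g1
      generalize ((a1 : ℂ) - x) * (a1 - y) * (a1 - z) = g2
      generalize ((a2 : ℂ) - x) * (a2 - y) * (a2 - z) = g3
      generalize (1 - x) * (1 - y) * (1 - z) = g4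
      generalize (x - y) * (x - z) * (y - z) = g5
      norm_num
      ring
    rw [e2, q1, q2, q3, q4]
    push_cast
    ring
  exact_mod_cast H2


/-- monomial function -/
def mon (κ : ℝ) (a b b' d d' : ℕ) (a1 a2 : ℝ) : ℝ :=
  κ * ((a1 - a2) ^ (2 * a) * (a1 - 1) ^ (2 * b) * (a2 - 1) ^ (2 * b') * a1 ^ (2 * d) * a2 ^ (2 * d'))

lemma pair_mon (p : Fin 7 × Fin 7) : ∃ (κ : ℝ) (a b b' d d' : ℕ), 0 ≤ κ ∧
    ∀ a1 a2 : ℝ, (zr a1 a2 p.1 - zr a1 a2 p.2) ^ 2 = mon κ a b b' d d' a1 a2 := by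
  obtain ⟨i, j⟩ := p
  have h0 : ∀ i : Fin 7, (∀ a1 a2, zr a1 a2 i = a1) ∨ (∀ a1 a2, zr a1 a2 i = a2) ∨ (∀ a1 a2, zr a1 a2 i = 1) ∨
      (∀ a1 a2, zr a1 a2 i = 0) := by
    intro i
    fin_cases i
    · exact Or.inl fun _ _ => rfl
    · exact Or.inl fun _ _ => rfl
    · exact Or.inr (Or.inl fun _ _ => rfl)
    · exact Or.inr (Or.inl fun _ _ => rfl)
    · exact Or.inr (Or.inr (Or.inl fun _ _ => rfl))
    · exact Or.inr (Or.inr (Or.inl fun _ _ => rfl))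
    · exact Or.inr (Or.inr (Or.inr fun _ _ => rfl))
  rcases h0 i with hi | hi | hi | hi <;> rcases h0 j with hj | hj | hj | hj
  · exact ⟨0, 0, 0, 0, 0, 0, le_rfl, fun a1 a2 => by simp only [hi, hj, mon]; ring⟩
  · exact ⟨1, 1, 0, 0, 0, 0, zero_le_one, fun a1 a2 => by simp only [hi, hj, mon]; ring⟩
  · exact ⟨1, 0, 1, 0, 0, 0, zero_le_one, fun a1 a2 => by simp only [hi, hj, mon]; ring⟩
  · exact ⟨1, 0, 0, 0, 1, 0, zero_le_one, fun a1 a2 => by simp only [hi, hj, mon]; ring⟩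
  · exact ⟨1, 1, 0, 0, 0, 0, zero_le_one, fun a1 a2 => by simp only [hi, hj, mon]; ring⟩
  · exact ⟨0, 0, 0, 0, 0, 0, le_rfl, fun a1 a2 => by simp only [hi, hj, mon]; ring⟩
  · exact ⟨1, 0, 0, 1, 0, 0, zero_le_one, fun a1 a2 => by simp only [hi, hj, mon]; ring⟩
  · exact ⟨1, 0, 0, 0, 0, 1, zero_le_one, fun a1 a2 => by simp only [hi, hj, mon]; ring⟩
  · exact ⟨1, 0, 1, 0, 0, 0, zero_le_one, fun a1 a2 => by simp only [hi, hj, mon]; ring⟩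
  · exact ⟨1, 0, 0, 1, 0, 0, zero_le_one, fun a1 a2 => by simp only [hi, hj, mon]; ring⟩
  · exact ⟨0, 0, 0, 0, 0, 0, le_rfl, fun a1 a2 => by simp only [hi, hj, mon]; ring⟩
  · exact ⟨1, 0, 0, 0, 0, 0, zero_le_one, fun a1 a2 => by simp only [hi, hj, mon]; ring⟩
  · exact ⟨1, 0, 0, 0, 1, 0, zero_le_one, fun a1 a2 => by simp only [hi, hj, mon]; ring⟩
  · exact ⟨1, 0, 0, 0, 0, 1, zero_le_one, fun a1 a2 => by simp only [hi, hj, mon]; ring⟩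
  · exact ⟨1, 0, 0, 0, 0, 0, zero_le_one, fun a1 a2 => by simp only [hi, hj, mon]; ring⟩
  · exact ⟨0, 0, 0, 0, 0, 0, le_rfl, fun a1 a2 => by simp only [hi, hj, mon]; ring⟩

lemma mon_mul (κ κ₁ : ℝ) (a b b' d d' e f f' g g' : ℕ) (a1 a2 : ℝ) : mon κ a b b' d d' a1 a2 * mon κ₁ e f f' g g' a1 a2 =
    mon (κ * κ₁) (a + e) (b + f) (b' + f') (d + g) (d' + g') a1 a2 := by
  simp only [mon, mul_add, pow_add]
  ring

lemma list_mon (l : List (Fin 7 × Fin 7)) : ∃ (κ : ℝ) (a b b' d d' : ℕ), 0 ≤ κ ∧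
    ∀ a1 a2 : ℝ, (Qv l a1 a2) ^ 2 = mon κ a b b' d d' a1 a2 := by
  induction l with
  | nil => exact ⟨1, 0, 0, 0, 0, 0, zero_le_one, fun a1 a2 => by simp [Qv, mon]⟩
  | cons p l ih =>
    obtain ⟨κ, a, b, b', d, d', hκ, h⟩ := ih
    obtain ⟨κ₁, e, f, f', g, g', hκ₁, h₁⟩ := pair_mon p
    refine ⟨κ₁ * κ, e + a, f + b, f' + b', g + d, g' + d', mul_nonneg hκ₁ hκ, fun a1 a2 => ?_⟩
    have e1 : Qv (p :: l) a1 a2 = (zr a1 a2 p.1 - zr a1 a2 p.2) * Qv l a1 a2 := by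
      simp [Qv]
    rw [e1, mul_pow, h, h₁]
    exact mon_mul _ _ _ _ _ _ _ _ _ _ _ _ _ _

/-- If `u(ε) ε^{2a} ≤ ε^{2N} v(ε)` for `ε ≠ 0` with `a < N`, then `u 0 ≤ 0`. -/
lemma vanish {u v : ℝ → ℝ} (hu : Continuous u) (hv : Continuous v) {a N : ℕ} (haN : a < N)
    (h : ∀ ε : ℝ, ε ≠ 0 → ε ^ (2 * a) * u ε ≤ ε ^ (2 * N) * v ε) : u 0 ≤ 0 := by
  have h1 : ∀ ε : ℝ, ε ≠ 0 → u ε ≤ ε ^ (2 * (N - a)) * v ε := by
    intro ε hε
    have hp : 0 < ε ^ (2 * a) := by rw [pow_mul]; positivity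
    have h2 := h ε hε
    have e : ε ^ (2 * N) = ε ^ (2 * a) * ε ^ (2 * (N - a)) := by
      rw [← pow_add]; congr 1; omega
    rw [e, mul_assoc] at h2
    exact le_of_mul_le_mul_left h2 hp
  have hc : Continuous (fun ε : ℝ => ε ^ (2 * (N - a)) * v ε) := (continuous_pow _).mul hv
  have t1 : Filter.Tendsto u (nhdsWithin 0 {0}ᶜ) (nhds (u 0)) := (hu.tendsto 0).mono_left nhdsWithin_le_nhds
  have t2 : Filter.Tendsto (fun ε : ℝ => ε ^ (2 * (N - a)) * v ε) (nhdsWithin 0 {0}ᶜ) (nhds (0 ^ (2 * (N - a)) * v 0)) :=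
    (hc.tendsto 0).mono_left nhdsWithin_le_nhds
  have t3 := le_of_tendsto_of_tendsto t1 t2 (by
    filter_upwards [self_mem_nhdsWithin] with ε hε
    exact h1 ε hε)
  rwa [zero_pow (by omega), zero_mul] at t3

/-- equality of continuous functions off 0 gives equality at 0 -/
lemma eq_at_zero {u v : ℝ → ℝ} (hu : Continuous u) (hv : Continuous v) (h : ∀ ε : ℝ, ε ≠ 0 → u ε = v ε) : u 0 = v 0 := by
  have t1 : Filter.Tendsto u (nhdsWithin 0 {0}ᶜ) (nhds (u 0)) := (hu.tendsto 0).mono_left nhdsWithin_le_nhds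
  have t2 : Filter.Tendsto v (nhdsWithin 0 {0}ᶜ) (nhds (v 0)) := (hv.tendsto 0).mono_left nhdsWithin_le_nhds
  refine tendsto_nhds_unique t1 (t2.congr' ?_)
  filter_upwards [self_mem_nhdsWithin] with ε hε
  exact (h ε hε).symm

theorem key (m : ℕ) (c : Fin m → ℝ) (E : Fin m → List (Fin 7 × Fin 7)) (hc : ∀ k, 0 ≤ c k)
    (R : ∀ a1 a2 : ℝ, 64 * (a1 - a2) ^ 6 * (a1 - 1) ^ 6 * (a2 - 1) ^ 6 * a1 ^ 2 * a2 ^ 2 * dq a1 a2 =
      ∑ k : Fin m, c k * (Qv (E k) a1 a2) ^ 2) : False := by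
  choose κ a b b' d d' hκ hmon using fun k => list_mon (E k)
  have hC : ∀ k, 0 ≤ c k * κ k := fun k => mul_nonneg (hc k) (hκ k)
  have R1 : ∀ a1 a2 : ℝ, 64 * (a1 - a2) ^ 6 * (a1 - 1) ^ 6 * (a2 - 1) ^ 6 * a1 ^ 2 * a2 ^ 2 * dq a1 a2 =
      ∑ k : Fin m, (c k * κ k) * ((a1 - a2) ^ (2 * a k) * (a1 - 1) ^ (2 * b k) * (a2 - 1) ^ (2 * b' k) * a1 ^ (2 * d k) *
        a2 ^ (2 * d' k)) := by
    intro a1 a2
    rw [R]
    apply Finset.sum_congr rfl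
    intro k _
    rw [hmon, mon]
    ring
  have hterm : ∀ k, ∀ a1 a2 : ℝ, 0 ≤ (c k * κ k) * ((a1 - a2) ^ (2 * a k) * (a1 - 1) ^ (2 * b k) * (a2 - 1) ^ (2 * b' k) *
      a1 ^ (2 * d k) * a2 ^ (2 * d' k)) := by
    intro k a1 a2
    have := hC k
    simp only [pow_mul]
    positivity
  -- Step 1: active terms have a k ≥ 3
  have S1 : ∀ k, c k * κ k ≠ 0 → 3 ≤ a k := by
    intro k hk
    by_contra hlt
    push Not at hlt
    have hcont : Continuous (fun ε : ℝ => dq 2 (2 + ε)) := by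
      unfold dq
      fun_prop
    have := vanish (u := fun ε : ℝ => (c k * κ k) * ((2 - 1) ^ (2 * b k) * ((2 + ε) - 1) ^ (2 * b' k) * 2 ^ (2 * d k) *
      (2 + ε) ^ (2 * d' k))) (v := fun ε : ℝ => 64 * (2 - 1) ^ 6 * ((2 + ε) - 1) ^ 6 * 2 ^ 2 * (2 + ε) ^ 2 * dq 2 (2 + ε))
      (a := a k) (N := 3) (by fun_prop) (by fun_prop) hlt (by
        intro ε _
        have h1 := Finset.single_le_sum (s := Finset.univ) (f := fun k => (c k * κ k) * (((2 : ℝ) - (2 + ε)) ^ (2 * a k) *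
          (2 - 1) ^ (2 * b k) * ((2 + ε) - 1) ^ (2 * b' k) * 2 ^ (2 * d k) * (2 + ε) ^ (2 * d' k)))
          (fun k _ => hterm k 2 (2 + ε)) (Finset.mem_univ k)
        rw [← R1] at h1
        have e : ((2 : ℝ) - (2 + ε)) = -ε := by ring
        have e2 : (-ε) ^ (2 * a k) = ε ^ (2 * a k) := by rw [pow_mul, pow_mul, neg_sq]
        simp only [e, e2] at h1
        have e3 : (-ε) ^ 6 = ε ^ (2 * 3) := by ring
        rw [e3] at h1
        linarith)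
    simp only [add_zero] at this
    have hpos : 0 < (c k * κ k) * (((2 : ℝ) - 1) ^ (2 * b k) * (2 - 1) ^ (2 * b' k) * 2 ^ (2 * d k) * 2 ^ (2 * d' k)) := by
      have := lt_of_le_of_ne (hC k) (Ne.symm hk)
      have h21 : (0 : ℝ) < 2 - 1 := by norm_num
      positivity
    linarith
  -- Step 2: the one-variable identity
  set C' : Fin m → ℝ := fun k => (c k * κ k) * 0 ^ (2 * (a k - 3)) with hC'
  have hC'0 : ∀ k, 0 ≤ C' k := fun k => mul_nonneg (hC k) (by rw [pow_mul]; positivity)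
  have R2 : ∀ A : ℝ, 64 * (A - 1) ^ 6 * (A - 1) ^ 6 * A ^ 2 * A ^ 2 * dq A A =
      ∑ k : Fin m, C' k * ((A - 1) ^ (2 * (b k + b' k)) * A ^ (2 * (d k + d' k))) := by
    intro A
    have hcont : Continuous (fun ε : ℝ => dq A (A + ε)) := by
      unfold dq
      fun_prop
    have := eq_at_zero (u := fun ε : ℝ => 64 * (A - 1) ^ 6 * ((A + ε) - 1) ^ 6 * A ^ 2 * (A + ε) ^ 2 * dq A (A + ε))
      (v := fun ε : ℝ => ∑ k : Fin m, (c k * κ k) * (ε ^ (2 * (a k - 3)) * (A - 1) ^ (2 * b k) * ((A + ε) - 1) ^ (2 * b' k) *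
        A ^ (2 * d k) * (A + ε) ^ (2 * d' k))) (by fun_prop) (by fun_prop) (by
        intro ε hε
        have h1 := R1 A (A + ε)
        have e : (A - (A + ε)) = -ε := by ring
        have e3 : (-ε) ^ 6 = ε ^ 6 := by ring
        simp only [e, e3] at h1
        have hp : ε ^ 6 ≠ 0 := pow_ne_zero _ hε
        apply mul_left_cancel₀ hp
        rw [Finset.mul_sum]
        have e4 : ε ^ 6 * (64 * (A - 1) ^ 6 * ((A + ε) - 1) ^ 6 * A ^ 2 * (A + ε) ^ 2 * dq A (A + ε)) =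
          64 * ε ^ 6 * (A - 1) ^ 6 * ((A + ε) - 1) ^ 6 * A ^ 2 * (A + ε) ^ 2 * dq A (A + ε) := by ring
        rw [e4, h1]
        apply Finset.sum_congr rfl
        intro k _
        by_cases hk : c k * κ k = 0
        · rw [hk]; ring
        · have h3 := S1 k hk
          have e5 : (-ε) ^ (2 * a k) = ε ^ 6 * ε ^ (2 * (a k - 3)) := by
            rw [pow_mul, neg_sq, ← pow_mul, ← pow_add]
            congr 1
            omega
          rw [e5]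
          ring)
    simp only [add_zero] at this
    rw [this]
    apply Finset.sum_congr rfl
    intro k _
    simp only [hC']
    rw [mul_add 2 (b k), mul_add 2 (d k), pow_add, pow_add]
    ring
  have hterm2 : ∀ k, ∀ A : ℝ, 0 ≤ C' k * ((A - 1) ^ (2 * (b k + b' k)) * A ^ (2 * (d k + d' k))) := by
    intro k A
    have := hC'0 k
    simp only [pow_mul]
    positivity
  have hdq : ∀ A : ℝ, dq A A = 16 * (A - 1) ^ 2 * A ^ 2 * (9 * A ^ 2 + 2 * A + 25) := by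
    intro A
    unfold dq
    ring
  -- Step 3: b + b' ≥ 7
  have S2 : ∀ k, C' k ≠ 0 → 7 ≤ b k + b' k := by
    intro k hk
    by_contra hlt
    push Not at hlt
    have := vanish (u := fun ε : ℝ => C' k * (1 + ε) ^ (2 * (d k + d' k)))
      (v := fun ε : ℝ => 1024 * (1 + ε) ^ 6 * (9 * (1 + ε) ^ 2 + 2 * (1 + ε) + 25))
      (a := b k + b' k) (N := 7) (by fun_prop) (by fun_prop) hlt (by
        intro ε _
        have h1 := Finset.single_le_sum (s := Finset.univ) (f := fun k => C' k * (((1 + ε) - 1) ^ (2 * (b k + b' k)) *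
          (1 + ε) ^ (2 * (d k + d' k)))) (fun k _ => hterm2 k (1 + ε)) (Finset.mem_univ k)
        rw [← R2, hdq] at h1
        have e : ((1 + ε) - 1) = ε := by ring
        simp only [e] at h1
        calc ε ^ (2 * (b k + b' k)) * (C' k * (1 + ε) ^ (2 * (d k + d' k))) =
            C' k * (ε ^ (2 * (b k + b' k)) * (1 + ε) ^ (2 * (d k + d' k))) := by ring
          _ ≤ _ := h1
          _ = _ := by ring)
    simp only [add_zero, one_pow, mul_one] at this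
    exact absurd (lt_of_le_of_ne (hC'0 k) (Ne.symm hk)) (not_lt.2 this)
  -- Step 4: contradiction
  have F2 := R2 2
  have Fm := R2 (-2)
  rw [hdq] at F2 Fm
  have hle : ∑ k : Fin m, 9 ^ 7 * (C' k * (((2 : ℝ) - 1) ^ (2 * (b k + b' k)) * 2 ^ (2 * (d k + d' k)))) ≤
      ∑ k : Fin m, C' k * (((-2 : ℝ) - 1) ^ (2 * (b k + b' k)) * (-2) ^ (2 * (d k + d' k))) := by
    apply Finset.sum_le_sum
    intro k _
    by_cases hk : C' k = 0
    · rw [hk]; simp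
    · have h7 := S2 k hk
      have e1 : ((2 : ℝ) - 1) = 1 := by norm_num
      have e2 : ((-2 : ℝ) - 1) ^ (2 * (b k + b' k)) = 9 ^ (b k + b' k) := by
        rw [pow_mul]; norm_num
      have e3 : (-2 : ℝ) ^ (2 * (d k + d' k)) = 2 ^ (2 * (d k + d' k)) := by
        rw [pow_mul, pow_mul, neg_sq]
      rw [e1, one_pow, one_mul, e2, e3]
      have e4 : (9 : ℝ) ^ 7 ≤ 9 ^ (b k + b' k) := pow_le_pow_right₀ (by norm_num) h7
      have e5 : 0 ≤ C' k * (2 : ℝ) ^ (2 * (d k + d' k)) := mul_nonneg (hC'0 k) (by positivity)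
      calc (9 : ℝ) ^ 7 * (C' k * 2 ^ (2 * (d k + d' k))) ≤ 9 ^ (b k + b' k) * (C' k * 2 ^ (2 * (d k + d' k))) :=
            mul_le_mul_of_nonneg_right e4 e5
        _ = _ := by ring
  rw [← Finset.mul_sum, ← F2, ← Fm] at hle
  norm_num at hle

end

end Pool.Agent.H9.DiscDeriv
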